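import Pool.Agent.P.MP_7b9a49_nt.FamMain

open Polynomial Pool.Agent.P.MP_7b9a49_nt in
theorem Pool.Agent.Results.MP_7b9a49_nt.InfiniteFamily.result :
    Set.Infinite {n : ℕ | Odd n ∧ Squarefree n ∧ n.primeFactors.card = 5 ∧
      ∃ f : ℤ[X], f ∣ X ^ n - 1 ∧
        height (∏ d ∈ n.divisors.filter (fun d => Odd d.primeFactors.card), cyclotomic d ℤ)
          < height f ∧
        height (∏ d ∈ n.divisors.filter (fun d => Even d.primeFactors.card), cyclotomic d ℤ)
          < height f} :=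
  Pool.Agent.P.MP_7b9a49_nt.Fam.infinite

open Polynomial Pool.Agent.P.MP_7b9a49_nt in
/-- The negated form of the problem file is an instance. -/
theorem Pool.Agent.Results.MP_7b9a49_nt.InfiniteFamily.posed :
    ∃ (n : ℕ) (f : ℤ[X]), 1 < n ∧ Squarefree n ∧ f ∣ X ^ n - 1 ∧
      height (∏ d ∈ n.divisors.filter (fun d => Odd d.primeFactors.card), cyclotomic d ℤ)
        < height f ∧
      height (∏ d ∈ n.divisors.filter (fun d => Even d.primeFactors.card), cyclotomic d ℤ)
        < height f := by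
  obtain ⟨n, ⟨_, h2, _, f, h4⟩, h5⟩ :=
    Pool.Agent.Results.MP_7b9a49_nt.InfiniteFamily.result.exists_gt 1
  exact ⟨n, f, h5, h2, h4⟩
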